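import Pool.Agent.N831.SP.C
import Pool.Agent.H370R2.Rect

set_option autoImplicit false

/-! The argument principle. -/

namespace Pool.Agent.N831.SP

open Complex Filter Topology Set MeasureTheory
open H370 (RI Bd mk_eq ii_h ii_v mult)

noncomputable section

lemma hasDerivAt_h {W : ℂ → ℂ} {x c : ℝ} (hW : AnalyticAt ℂ W ⟨x, c⟩) (hs : W ⟨x, c⟩ ∈ slitPlane) :
    HasDerivAt (fun x : ℝ => log (W ⟨x, c⟩)) (deriv W ⟨x, c⟩ / W ⟨x, c⟩) x := by
  have h1 : HasDerivAt (fun w : ℂ => w + c * I) 1 (x : ℂ) := (hasDerivAt_id (x : ℂ)).add_const _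
  have e : ((x : ℂ) + c * I) = ⟨x, c⟩ := (mk_eq x c).symm
  have hW' : HasDerivAt W (deriv W ⟨x, c⟩) ((x : ℂ) + c * I) := by
    rw [e]; exact hW.differentiableAt.hasDerivAt
  have h2 := (hW'.comp (x : ℂ) h1).clog (by
    show W ((x : ℂ) + c * I) ∈ slitPlane
    rw [e]; exact hs)
  have h3 := h2.comp_ofReal
  rw [mul_one] at h3
  have e2 : (fun y : ℝ => log ((W ∘ fun w : ℂ => w + c * I) (y : ℂ))) = fun x : ℝ => log (W ⟨x, c⟩) := by
    funext y
    rw [Function.comp_apply, ← mk_eq]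
  rw [e2] at h3
  refine h3.congr_deriv ?_
  rw [Function.comp_apply, e]

lemma hasDerivAt_v {W : ℂ → ℂ} {y b : ℝ} (hW : AnalyticAt ℂ W ⟨b, y⟩) (hs : W ⟨b, y⟩ ∈ slitPlane) :
    HasDerivAt (fun y : ℝ => log (W ⟨b, y⟩)) (I * (deriv W ⟨b, y⟩ / W ⟨b, y⟩)) y := by
  have h1 : HasDerivAt (fun w : ℂ => b + w * I) I (y : ℂ) := by
    simpa using ((hasDerivAt_id (y : ℂ)).mul_const I).const_add (b : ℂ)
  have e : ((b : ℂ) + y * I) = ⟨b, y⟩ := (mk_eq b y).symm
  have hW' : HasDerivAt W (deriv W ⟨b, y⟩) ((b : ℂ) + y * I) := by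
    rw [e]; exact hW.differentiableAt.hasDerivAt
  have h2 := (hW'.comp (y : ℂ) h1).clog (by
    show W ((b : ℂ) + y * I) ∈ slitPlane
    rw [e]; exact hs)
  have h3 := h2.comp_ofReal
  have e2 : (fun y : ℝ => log ((W ∘ fun w : ℂ => b + w * I) (y : ℂ))) = fun y : ℝ => log (W ⟨b, y⟩) := by
    funext y
    rw [Function.comp_apply, ← mk_eq]
  rw [e2] at h3
  refine h3.congr_deriv ?_
  rw [Function.comp_apply, e]
  ring

/-- the integral of the logarithmic derivative of a function with values in the slit plane -/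
lemma RI_log_zero {a b c d : ℝ} (hab : a ≤ b) (hcd : c ≤ d) {W : ℂ → ℂ}
    (hW : ∀ s ∈ Bd a b c d, AnalyticAt ℂ W s ∧ W s ∈ slitPlane) :
    RI a b c d (fun s => deriv W s / W s) = 0 := by
  have hcont : ContinuousOn (fun s => deriv W s / W s) (Bd a b c d) := by
    intro s hs
    obtain ⟨h1, h2⟩ := hW s hs
    exact (h1.deriv.continuousAt.div h1.continuousAt (slitPlane_ne_zero h2)).continuousWithinAt
  have hh : ∀ e : ℝ, (e = c ∨ e = d) → ∫ x in a..b, deriv W ⟨x, e⟩ / W ⟨x, e⟩ =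
      log (W ⟨b, e⟩) - log (W ⟨a, e⟩) := by
    intro e he
    refine intervalIntegral.integral_eq_sub_of_hasDerivAt (f := fun x : ℝ => log (W ⟨x, e⟩))
      (fun x hx => ?_) (ii_h hab hcont he)
    rw [uIcc_of_le hab] at hx
    obtain ⟨h1, h2⟩ := hW ⟨x, e⟩ (Or.inl ⟨hx, he⟩)
    exact hasDerivAt_h h1 h2
  have hv : ∀ e : ℝ, (e = a ∨ e = b) → I * ∫ y in c..d, deriv W ⟨e, y⟩ / W ⟨e, y⟩ =
      log (W ⟨e, d⟩) - log (W ⟨e, c⟩) := by
    intro e he
    rw [← intervalIntegral.integral_const_mul]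
    refine intervalIntegral.integral_eq_sub_of_hasDerivAt (f := fun y : ℝ => log (W ⟨e, y⟩))
      (fun y hy => ?_) ((ii_v hcd hcont he).const_mul I)
    rw [uIcc_of_le hcd] at hy
    obtain ⟨h1, h2⟩ := hW ⟨e, y⟩ (Or.inr ⟨hy, he⟩)
    exact hasDerivAt_v h1 h2
  unfold RI
  simp only
  rw [hh c (Or.inl rfl), hh d (Or.inr rfl), hv b (Or.inr rfl), hv a (Or.inl rfl)]
  ring

/-- equal numbers of zeros if `-G / F` has values in the slit plane on the boundary -/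
theorem equal_of_bd {F G : ℂ → ℂ} {a b c d : ℝ} (hab : a < b) (hcd : c < d)
    (hF : AnalyticOnNhd ℂ F (Icc a b ×ℂ Icc c d)) (hG : AnalyticOnNhd ℂ G (Icc a b ×ℂ Icc c d))
    (hbd : ∀ s ∈ Bd a b c d, F s ≠ 0 ∧ G s ≠ 0 ∧ (G s / F s).re ≤ 0) :
    (Set.Finite {s | s ∈ Ioo a b ×ℂ Ioo c d ∧ F s = 0}) ∧
    (Set.Finite {s | s ∈ Ioo a b ×ℂ Ioo c d ∧ G s = 0}) ∧
    ∑ᶠ s ∈ {s | s ∈ Ioo a b ×ℂ Ioo c d ∧ F s = 0}, analyticOrderNatAt F s =
      ∑ᶠ s ∈ {s | s ∈ Ioo a b ×ℂ Ioo c d ∧ G s = 0}, analyticOrderNatAt G s := by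
  have hint : ∀ s ∈ Icc a b ×ℂ Icc c d, s ∉ Bd a b c d → s ∈ Ioo a b ×ℂ Ioo c d := by
    rintro s ⟨h1, h2⟩ h3
    rw [mem_preimage] at h1 h2
    refine ⟨⟨lt_of_le_of_ne h1.1 ?_, lt_of_le_of_ne h1.2 ?_⟩, ⟨lt_of_le_of_ne h2.1 ?_, lt_of_le_of_ne h2.2 ?_⟩⟩
    · intro h; exact h3 (Or.inr ⟨h2, Or.inl h.symm⟩)
    · intro h; exact h3 (Or.inr ⟨h2, Or.inr h⟩)
    · intro h; exact h3 (Or.inl ⟨h1, Or.inl h.symm⟩)
    · intro h; exact h3 (Or.inl ⟨h1, Or.inr h⟩)
  obtain ⟨f1, e1⟩ := H370.rect_residue F (fun _ => 1) a b c d hab hcd hF (differentiable_const _)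
    (fun s hs h0 => hint s hs (fun h => (hbd s h).1 h0))
  obtain ⟨f2, e2⟩ := H370.rect_residue G (fun _ => 1) a b c d hab hcd hG (differentiable_const _)
    (fun s hs h0 => hint s hs (fun h => (hbd s h).2.1 h0))
  refine ⟨f1, f2, ?_⟩
  have hBK := H370.Bd_sub hab.le hcd.le
  set W : ℂ → ℂ := fun s => -(G s / F s) with hWdef
  have hWan : ∀ s ∈ Bd a b c d, AnalyticAt ℂ W s := fun s hs =>
    ((hG s (hBK hs)).div (hF s (hBK hs)) (hbd s hs).1).neg
  have hW0 : ∀ s ∈ Bd a b c d, W s ∈ slitPlane := by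
    intro s hs
    obtain ⟨h1, h2, h3⟩ := hbd s hs
    have hne : W s ≠ 0 := neg_ne_zero.mpr (div_ne_zero h2 h1)
    rw [Complex.mem_slitPlane_iff]
    have hre : 0 ≤ (W s).re := by rw [hWdef]; simp only [Complex.neg_re]; linarith
    rcases hre.eq_or_lt with h | h
    · right
      intro h4
      exact hne (Complex.ext h.symm h4)
    · left; exact h
  have h0 := RI_log_zero hab.le hcd.le (fun s hs => ⟨hWan s hs, hW0 s hs⟩)
  have hld : ∀ s ∈ Bd a b c d, deriv G s / G s * 1 = deriv W s / W s + deriv F s / F s * 1 := by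
    intro s hs
    obtain ⟨h1, h2, h3⟩ := hbd s hs
    have h4 : G =ᶠ[𝓝 s] fun w => W w * (fun w => -F w) w := by
      filter_upwards [(hF s (hBK hs)).continuousAt.eventually_ne h1] with w hw
      rw [hWdef]
      simp only
      field_simp
    have h5 := logderiv_mul_of h4 (hWan s hs).differentiableAt (hF s (hBK hs)).differentiableAt.neg
      (slitPlane_ne_zero (hW0 s hs)) (neg_ne_zero.mpr h1)
    rw [mul_one, mul_one, h5]
    congr 1
    have h6 : deriv (fun w => -F w) s = -deriv F s := deriv.fun_neg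
    rw [h6, neg_div_neg_eq]
  have hcF : ContinuousOn (fun s => deriv F s / F s * 1) (Bd a b c d) := by
    intro s hs
    exact (((hF s (hBK hs)).deriv.continuousAt.div (hF s (hBK hs)).continuousAt (hbd s hs).1).mul
      continuousAt_const).continuousWithinAt
  have hcW : ContinuousOn (fun s => deriv W s / W s) (Bd a b c d) := by
    intro s hs
    exact ((hWan s hs).deriv.continuousAt.div (hWan s hs).continuousAt
      (slitPlane_ne_zero (hW0 s hs))).continuousWithinAt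
  have h1 : RI a b c d (fun s => deriv G s / G s * 1) = RI a b c d (fun s => deriv F s / F s * 1) := by
    rw [H370.RI_congr hab.le hcd.le hld, H370.RI_add hab.le hcd.le hcW hcF, h0, zero_add]
  have h2 : RI a b c d (fun s => deriv F s / F s * 1) =
      2 * Real.pi * I * ∑ᶠ s ∈ {s | s ∈ Ioo a b ×ℂ Ioo c d ∧ F s = 0}, (mult F s : ℂ) * 1 := e1
  have h3 : RI a b c d (fun s => deriv G s / G s * 1) =
      2 * Real.pi * I * ∑ᶠ s ∈ {s | s ∈ Ioo a b ×ℂ Ioo c d ∧ G s = 0}, (mult G s : ℂ) * 1 := e2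
  rw [h2, h3] at h1
  have hpi : (2 * Real.pi * I : ℂ) ≠ 0 := Complex.two_pi_I_ne_zero
  have h4 := mul_left_cancel₀ hpi h1
  rw [finsum_mem_eq_finite_toFinset_sum _ f1, finsum_mem_eq_finite_toFinset_sum _ f2] at h4
  rw [finsum_mem_eq_finite_toFinset_sum _ f1, finsum_mem_eq_finite_toFinset_sum _ f2]
  simp only [mul_one] at h4
  have h5 : ((∑ s ∈ f2.toFinset, analyticOrderNatAt G s : ℕ) : ℂ) =
      ((∑ s ∈ f1.toFinset, analyticOrderNatAt F s : ℕ) : ℂ) := by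
    push_cast
    exact h4
  exact_mod_cast h5.symm

end

end Pool.Agent.N831.SP
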