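import Pool.Agent.N831.SP.D

set_option autoImplicit false

/-! Equal numbers of zeros between good heights; the measure of the other heights. -/

namespace Pool.Agent.N831.SP

open Complex Filter Topology Set MeasureTheory
open Pool.Agent.H24R2.JP
open Pool.Agent.Y22.LM

noncomputable section

/-- zeros to the left of the critical line -/
def ZS (F : ℂ → ℂ) (T1 T2 : ℝ) : Set ℂ := {s | F s = 0 ∧ s.re < 1 / 2 ∧ T1 < s.im ∧ s.im ≤ T2}

/-- a good height -/
def Good (t : ℝ) : Prop := ∀ σ : ℝ, σ < 1 / 2 → riemannZeta (σ + t * I) ≠ 0 ∧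
  deriv riemannZeta (σ + t * I) ≠ 0 ∧ (deriv riemannZeta (σ + t * I) / riemannZeta (σ + t * I)).re ≤ 0

lemma deriv_ne_of_re {s : ℂ} (h : (deriv riemannZeta s / riemannZeta s).re < 0) : deriv riemannZeta s ≠ 0 := by
  intro h0
  rw [h0, zero_div, Complex.zero_re] at h
  exact lt_irrefl _ h

lemma dzeta_an {s : ℂ} (hs : 0 < s.im) : AnalyticAt ℂ (deriv riemannZeta) s :=
  (zeta_an (ne_one_of_im hs)).deriv

theorem good_equal {T1 T2 : ℝ} (h1 : 24 ≤ T1) (h12 : T1 < T2) (g1 : Good T1) (g2 : Good T2) :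
    (ZS riemannZeta T1 T2).Finite ∧ (ZS (deriv riemannZeta) T1 T2).Finite ∧
    ∑ᶠ s ∈ ZS riemannZeta T1 T2, analyticOrderNatAt riemannZeta s =
      ∑ᶠ s ∈ ZS (deriv riemannZeta) T1 T2, analyticOrderNatAt (deriv riemannZeta) s := by
  obtain ⟨δ0, hδ0, hstrip⟩ := strip (T1 := T1) (T2 := T2) h1
  obtain ⟨δ, hδ, hδle, hδ1⟩ : ∃ δ : ℝ, 0 < δ ∧ δ < δ0 ∧ δ < 1 :=
    ⟨min (δ0 / 2) (1 / 2), lt_min (by linarith) (by norm_num), lt_of_le_of_lt (min_le_left _ _) (by linarith),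
      lt_of_le_of_lt (min_le_right _ _) (by norm_num)⟩
  set b : ℝ := 1 / 2 - δ with hb
  have hab : (-1 : ℝ) < b := by rw [hb]; linarith
  -- the edge
  have hedge : ∀ s : ℂ, s.re < 1 / 2 → T1 ≤ s.im → s.im ≤ T2 → (s.re ≤ -1 ∨ b ≤ s.re ∨ s.im = T1 ∨ s.im = T2) →
      riemannZeta s ≠ 0 ∧ deriv riemannZeta s ≠ 0 ∧ (deriv riemannZeta s / riemannZeta s).re ≤ 0 := by
    intro s hs1 hs2 hs3 hs4
    rcases hs4 with h | h | h | h
    · have h2 := far (t := s.im) (σ := s.re) (h1.trans hs2) (by linarith)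
      rw [Complex.re_add_im] at h2
      exact ⟨h2.1, deriv_ne_of_re h2.2, h2.2.le⟩
    · have h2 := hstrip s.im ⟨hs2, hs3⟩ s.re (by linarith) hs1
      rw [Complex.re_add_im] at h2
      exact ⟨h2.1, deriv_ne_of_re h2.2, h2.2.le⟩
    · have h2 := g1 s.re hs1
      rw [← h, Complex.re_add_im] at h2
      exact h2
    · have h2 := g2 s.re hs1
      rw [← h, Complex.re_add_im] at h2
      exact h2
  have himK : ∀ s ∈ Icc (-1) b ×ℂ Icc T1 T2, 0 < s.im := by
    rintro s ⟨-, h3⟩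
    rw [mem_preimage] at h3
    linarith [h3.1]
  obtain ⟨f1, f2, e⟩ := equal_of_bd (F := riemannZeta) (G := deriv riemannZeta) hab h12
    (fun s hs => zeta_an (ne_one_of_im (himK s hs))) (fun s hs => dzeta_an (himK s hs)) (by
      rintro s (⟨h3, h4⟩ | ⟨h3, h4⟩)
      · refine hedge s (by linarith [h3.2]) ?_ ?_ ?_
        · rcases h4 with h | h <;> rw [h] <;> linarith
        · rcases h4 with h | h <;> rw [h] <;> linarith
        · rcases h4 with h | h
          · exact Or.inr (Or.inr (Or.inl h))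
          · exact Or.inr (Or.inr (Or.inr h))
      · refine hedge s ?_ h3.1 h3.2 ?_
        · rcases h4 with h | h <;> rw [h] <;> linarith
        · rcases h4 with h | h
          · exact Or.inl h.le
          · exact Or.inr (Or.inl h.ge))
  have hset1 : ZS riemannZeta T1 T2 = {s | s ∈ Ioo (-1) b ×ℂ Ioo T1 T2 ∧ riemannZeta s = 0} := by
    ext s
    constructor
    · rintro ⟨h3, h4, h5, h6⟩
      have h7 : ¬ (s.re ≤ -1 ∨ b ≤ s.re ∨ s.im = T1 ∨ s.im = T2) := fun h => (hedge s h4 h5.le h6 h).1 h3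
      push Not at h7
      exact ⟨⟨⟨h7.1, h7.2.1⟩, ⟨h5, lt_of_le_of_ne h6 h7.2.2.2⟩⟩, h3⟩
    · rintro ⟨⟨h3, h4⟩, h5⟩
      rw [mem_preimage] at h3 h4
      exact ⟨h5, by linarith [h3.2], h4.1, h4.2.le⟩
  have hset2 : ZS (deriv riemannZeta) T1 T2 = {s | s ∈ Ioo (-1) b ×ℂ Ioo T1 T2 ∧ deriv riemannZeta s = 0} := by
    ext s
    constructor
    · rintro ⟨h3, h4, h5, h6⟩
      have h7 : ¬ (s.re ≤ -1 ∨ b ≤ s.re ∨ s.im = T1 ∨ s.im = T2) := fun h => (hedge s h4 h5.le h6 h).2.1 h3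
      push Not at h7
      exact ⟨⟨⟨h7.1, h7.2.1⟩, ⟨h5, lt_of_le_of_ne h6 h7.2.2.2⟩⟩, h3⟩
    · rintro ⟨⟨h3, h4⟩, h5⟩
      rw [mem_preimage] at h3 h4
      exact ⟨h5, by linarith [h3.2], h4.1, h4.2.le⟩
  rw [hset1, hset2]
  exact ⟨f1, f2, e⟩

/-- heights outside of all shadows are good -/
theorem good_of_clear {t : ℝ} (ht : 24 ≤ t)
    (h : ∀ ρ : ℂ, riemannZeta ρ = 0 → ρ.re - 1 / 2 ≤ |t - ρ.im|) : Good t := by
  intro σ hσ
  have h2 := rate (t := t) (h0 := 0) ht le_rfl (fun ρ hρ h1 => by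
    have := h ρ hρ
    linarith) (σ := σ) (by linarith)
  have h3 : (deriv riemannZeta (σ + t * I) / riemannZeta (σ + t * I)).re < 0 :=
    lt_of_le_of_lt h2.2 (by have := LL_pos ht; linarith)
  exact ⟨h2.1, deriv_ne_of_re h3, h3.le⟩

theorem good_of_anti {t : ℝ} (ht : 0 < t)
    (h : StrictAntiOn (fun σ : ℝ => ‖riemannZeta (σ + t * I)‖) (Set.Iic (1 / 2)))
    (h' : ∀ σ : ℝ, deriv riemannZeta (σ + t * I) ≠ 0) : Good t := by
  intro σ hσ
  have hne : riemannZeta (σ + t * I) ≠ 0 := by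
    intro h0
    have h1 := h (a := σ) (b := 1 / 2) (by rw [Set.mem_Iic]; exact hσ.le) (by rw [Set.mem_Iic]) hσ
    simp only at h1
    rw [h0, norm_zero] at h1
    exact absurd h1 (not_lt.mpr (norm_nonneg _))
  refine ⟨hne, h' σ, ?_⟩
  have h2 := re_le_of_left (f := riemannZeta) (σ := σ) (t := t) (c := 0)
    (differentiableAt_riemannZeta (ne_one_of_im (by simpa using ht))) hne (by
      filter_upwards [self_mem_nhdsWithin] with x hx
      rw [Set.mem_Iio] at hx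
      rw [zero_mul, Real.exp_zero, mul_one]
      have h1 := h (a := x) (b := σ) (by rw [Set.mem_Iic]; linarith) (by rw [Set.mem_Iic]; linarith) hx
      exact h1.le)
  simpa using h2

lemma dzeta_isolated {s : ℂ} (hs : 0 < s.im) : ∀ᶠ z in 𝓝[≠] s, deriv riemannZeta z ≠ 0 := by
  rcases (dzeta_an hs).eventually_eq_zero_or_eventually_ne_zero with h | h
  · exfalso
    have hU : IsPreconnected {s : ℂ | 0 < s.im} := (convex_halfSpace_im_gt 0).isPreconnected
    have han : AnalyticOnNhd ℂ (deriv riemannZeta) {s : ℂ | 0 < s.im} := fun z hz => dzeta_an hz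
    have h1 := han.eqOn_zero_of_preconnected_of_eventuallyEq_zero hU hs h
    have h2 := far (t := 24) (σ := -1) le_rfl (by norm_num)
    have h3 : ((((-1 : ℝ) : ℂ) + ((24 : ℝ) : ℂ) * I) : ℂ) ∈ {s : ℂ | 0 < s.im} := by simp
    exact deriv_ne_of_re h2.2 (h1 h3)
  · exact h

lemma countable_heights : Set.Countable {t : ℝ | 0 < t ∧ ∃ σ : ℝ, deriv riemannZeta (σ + t * I) = 0} := by
  set Z : Set ℂ := {s | 0 < s.im ∧ deriv riemannZeta s = 0} with hZ
  have hd : IsDiscrete Z := by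
    rw [isDiscrete_iff_nhdsNE]
    rintro x ⟨hx1, hx2⟩
    rw [← _root_.disjoint_iff, Filter.disjoint_principal_right]
    filter_upwards [dzeta_isolated hx1] with z hz hzZ
    exact hz hzZ.2
  have hc : Z.Countable := (HereditarilyLindelofSpace.isLindelof Z).countable_of_isDiscrete hd
  refine (hc.image Complex.im).mono ?_
  rintro t ⟨ht, σ, h⟩
  refine ⟨σ + t * I, ⟨by simpa using ht, h⟩, by simp⟩

/-- the exceptional heights -/
def Exc : Set ℝ := {t : ℝ | ¬ Good t}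

theorem exc_measure : ∀ᶠ X : ℝ in atTop, volume (Exc ∩ Icc 0 X) ≤ ENNReal.ofReal (0.076 * X) := by
  filter_upwards [part_one] with X hX
  have hsub : Exc ∩ Icc 0 X ⊆ {t : ℝ | 0 ≤ t ∧ t ≤ X ∧
      ¬ StrictAntiOn (fun σ : ℝ => ‖riemannZeta (σ + t * I)‖) (Set.Iic (1 / 2))} ∪
      (insert 0 {t : ℝ | 0 < t ∧ ∃ σ : ℝ, deriv riemannZeta (σ + t * I) = 0}) := by
    rintro t ⟨h1, h2, h3⟩
    rcases h2.eq_or_lt with h0 | h0
    · right; left; exact h0.symm
    · by_cases h4 : StrictAntiOn (fun σ : ℝ => ‖riemannZeta (σ + t * I)‖) (Set.Iic (1 / 2))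
      · right; right
        refine ⟨h0, ?_⟩
        by_contra hcon
        push Not at hcon
        exact h1 (good_of_anti h0 h4 hcon)
      · left; exact ⟨h2, h3, h4⟩
  refine (measure_mono hsub).trans ((measure_union_le _ _).trans ?_)
  rw [(countable_heights.insert 0).measure_zero volume, add_zero]
  exact hX

theorem exc_shadow {t : ℝ} (ht : 24 ≤ t) (h : t ∈ Exc) :
    ∃ ρ : ℂ, riemannZeta ρ = 0 ∧ |t - ρ.im| < ρ.re - 1 / 2 := by
  by_contra hcon
  push Not at hcon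
  exact h (good_of_clear ht (fun ρ hρ => hcon ρ hρ))

end

end Pool.Agent.N831.SP
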