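import Pool.Agent.N831.SP.A
import Pool.Agent.Y22.LM11

set_option autoImplicit false

/-! The sign of the real part of the logarithmic derivative of zeta to the left of the critical line. -/

namespace Pool.Agent.N831.SP

open Complex Filter Topology Set MeasureTheory
open Pool.Agent.H24R2.JP
open Pool.Agent.Y22.LM

noncomputable section

/-- the rate -/
def LL (t : ℝ) : ℝ := 1 / 2 * Real.log (t / (2 * Real.pi)) - 6 / t

lemma LL_pos {t : ℝ} (ht : 24 ≤ t) : 0 < LL t := by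
  have h1 := log_large ht
  unfold LL
  have h2 : 12 / t = 2 * (6 / t) := by ring
  linarith

lemma HH_re {σ t : ℝ} (ht : 0 < t) :
    LL t ≤ (deriv HH (σ + t * I) / HH (σ + t * I)).re := by
  have him : 0 < (σ + t * I : ℂ).im := by simpa using ht
  refine re_ge_of_right (HH_an him).differentiableAt (HH_ne_zero him) ?_
  filter_upwards [self_mem_nhdsWithin] with x hx
  rw [Set.mem_Ioi] at hx
  have h1 := hh_left ht (h1 := -x) (h2 := -σ) (by linarith)
  have e1 : (-((-σ : ℝ) : ℂ) + t * I : ℂ) = σ + t * I := by push_cast; ring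
  have e2 : (-((-x : ℝ) : ℂ) + t * I : ℂ) = x + t * I := by push_cast; ring
  rw [e1, e2] at h1
  have e3 : -(-σ - -x) * (1 / 2 * Real.log (t / (2 * Real.pi)) - 6 / t) = -(LL t * (x - σ)) := by
    unfold LL; ring
  rw [e3] at h1
  calc ‖HH (σ + t * I)‖ * Real.exp (LL t * (x - σ))
      ≤ (‖HH (x + t * I)‖ * Real.exp (-(LL t * (x - σ)))) * Real.exp (LL t * (x - σ)) := by gcongr
    _ = ‖HH (x + t * I)‖ := by
      rw [mul_assoc, ← Real.exp_add, neg_add_cancel, Real.exp_zero, mul_one]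

lemma zeta_an {s : ℂ} (hs : s ≠ 1) : AnalyticAt ℂ riemannZeta s := by
  rw [Complex.analyticAt_iff_eventually_differentiableAt]
  filter_upwards [isOpen_ne.mem_nhds hs] with w hw
  exact differentiableAt_riemannZeta hw

lemma ne_one_of_im {s : ℂ} (hs : 0 < s.im) : s ≠ 1 := by
  rintro rfl
  simp at hs

/-- strict negativity outside of the shadows -/
theorem rate {t h0 : ℝ} (ht : 24 ≤ t) (h0n : 0 ≤ h0)
    (hZ : ∀ ρ : ℂ, riemannZeta ρ = 0 → |t - ρ.im| < ρ.re - 1 / 2 → ρ.re - 1 / 2 ≤ h0) {σ : ℝ}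
    (hσ : σ < 1 / 2 - h0) :
    riemannZeta (σ + t * I) ≠ 0 ∧
      (deriv riemannZeta (σ + t * I) / riemannZeta (σ + t * I)).re ≤ -LL t := by
  have ht0 : 0 < t := by linarith
  have hX : ∀ h1 h2 : ℝ, h0 ≤ h1 → h1 ≤ h2 → ‖XX (h1 + t * I : ℂ)‖ ≤ ‖XX (h2 + t * I : ℂ)‖ ∧
      ∀ h : ℝ, h0 < h → XX (h + t * I : ℂ) ≠ 0 := by
    intro h1 h2 h01 h12
    have h3 := xx_growth (t := t) (by linarith) h0n ∅ (fun ρ hρ h4 h5 => by
      have := hZ ρ hρ h4
      linarith) (fun ρ hρ => by simp at hρ) h01 h12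
    simpa using h3
  have hfac : ∀ h : ℝ, ‖HH (-h + t * I : ℂ)‖ * ‖riemannZeta (((1 / 2 - h : ℝ) : ℂ) + t * I)‖ = ‖XX (h + t * I : ℂ)‖ := by
    intro h
    rw [← XX_refl_norm, ZetaTask.part1 _ (by simp; exact ht0), norm_mul]
    congr 3
    push_cast
    ring
  have hHp : ∀ h : ℝ, 0 < ‖HH (-h + t * I : ℂ)‖ := fun h => norm_pos_iff.mpr (HH_ne_zero (by simp; exact ht0))
  have hne : riemannZeta (σ + t * I) ≠ 0 := by
    intro h0'
    have h1 := hfac (1 / 2 - σ)
    have e : (1 / 2 - (1 / 2 - σ) : ℝ) = σ := by ring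
    rw [e, h0', norm_zero, mul_zero] at h1
    exact (hX h0 h0 le_rfl le_rfl).2 (1 / 2 - σ) (by linarith) (norm_eq_zero.mp h1.symm)
  refine ⟨hne, ?_⟩
  refine re_le_of_left (differentiableAt_riemannZeta (ne_one_of_im (by simpa using ht0))) hne ?_
  filter_upwards [self_mem_nhdsWithin] with x hx
  rw [Set.mem_Iio] at hx
  have h1 := (hX (1 / 2 - σ) (1 / 2 - x) (by linarith) (by linarith)).1
  rw [← hfac, ← hfac] at h1
  have e1 : (1 / 2 - (1 / 2 - σ) : ℝ) = σ := by ring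
  have e2 : (1 / 2 - (1 / 2 - x) : ℝ) = x := by ring
  rw [e1, e2] at h1
  have h2 := hh_left ht0 (h1 := 1 / 2 - σ) (h2 := 1 / 2 - x) (by linarith)
  have e3 : -(1 / 2 - x - (1 / 2 - σ)) * (1 / 2 * Real.log (t / (2 * Real.pi)) - 6 / t) = -(LL t * (σ - x)) := by
    unfold LL; ring
  rw [e3] at h2
  set A := ‖HH (-((1 / 2 - σ : ℝ) : ℂ) + t * I : ℂ)‖ with hA
  set B := ‖HH (-((1 / 2 - x : ℝ) : ℂ) + t * I : ℂ)‖ with hB
  have hA0 : 0 < A := hHp _
  set a := ‖riemannZeta (σ + t * I)‖ with ha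
  set b := ‖riemannZeta (x + t * I)‖ with hb
  have h3 : A * a ≤ A * (Real.exp (-(LL t * (σ - x))) * b) := by
    calc A * a ≤ B * b := h1
      _ ≤ (A * Real.exp (-(LL t * (σ - x)))) * b := mul_le_mul_of_nonneg_right h2 (norm_nonneg _)
      _ = _ := by ring
  have h4 := le_of_mul_le_mul_left h3 hA0
  calc a * Real.exp (LL t * (σ - x)) ≤ (Real.exp (-(LL t * (σ - x))) * b) * Real.exp (LL t * (σ - x)) := by gcongr
    _ = b * (Real.exp (-(LL t * (σ - x))) * Real.exp (LL t * (σ - x))) := by ring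
    _ = b := by rw [← Real.exp_add, neg_add_cancel, Real.exp_zero, mul_one]

/-- far to the left -/
theorem far {t σ : ℝ} (ht : 24 ≤ t) (hσ : σ < 0) :
    riemannZeta (σ + t * I) ≠ 0 ∧
      (deriv riemannZeta (σ + t * I) / riemannZeta (σ + t * I)).re < 0 := by
  have h := rate (t := t) (h0 := 1 / 2) ht (by norm_num) (fun ρ hρ h1 => by
    by_contra hcon
    push Not at hcon
    exact riemannZeta_ne_zero_of_one_le_re (by linarith) hρ) (σ := σ) (by linarith)
  exact ⟨h.1, lt_of_le_of_lt h.2 (by have := LL_pos ht; linarith)⟩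

/-- the logarithmic derivative of xi is purely imaginary on the critical line -/
lemma XX_im_axis (u : ℝ) : (XX (u * I)).im = 0 := by
  have h1 : (starRingEnd ℂ) (u * I : ℂ) = -(u * I) := by
    rw [map_mul, Complex.conj_ofReal, Complex.conj_I]; ring
  have h2 := B1h.XX_conj (u * I)
  rw [h1, Zer.XX_even] at h2
  have h3 := congrArg Complex.im h2
  rw [Complex.conj_im] at h3
  linarith

lemma XX_deriv_axis (u : ℝ) : (deriv XX (u * I)).re = 0 := by
  have h1 : HasDerivAt (fun w : ℂ => w * I) I (u : ℂ) := by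
    simpa using (hasDerivAt_id (u : ℂ)).mul_const I
  have h2 := ((B1h.XX_diff (u * I)).hasDerivAt).comp (u : ℂ) h1
  have h3 : HasDerivAt (fun x : ℝ => XX (x * I)) (deriv XX (u * I) * I) u := h2.comp_ofReal
  have h4 : HasDerivAt (fun x : ℝ => (XX (x * I)).im) (deriv XX (u * I) * I).im u := by
    have := (Complex.imCLM.hasFDerivAt (x := XX (u * I))).comp_hasDerivAt u h3
    exact this
  have h5 : (fun x : ℝ => (XX (x * I)).im) = fun _ => (0 : ℝ) := by
    funext x; exact XX_im_axis x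
  rw [h5] at h4
  have h6 := h4.unique (hasDerivAt_const u (0 : ℝ))
  simpa using h6

lemma logderiv_axis (u : ℝ) : (deriv XX (u * I) / XX (u * I)).re = 0 := by
  rw [Complex.div_re, XX_im_axis, XX_deriv_axis]
  simp

end

end Pool.Agent.N831.SP
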