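import Mathlib

set_option autoImplicit false

/-! Logarithmic derivatives along horizontal lines. -/

namespace Pool.Agent.N831.SP

open Complex Filter Topology Set MeasureTheory

/-- derivative of `log ‖f‖` along a horizontal line -/
lemma hasDerivAt_log_norm {f : ℂ → ℂ} {σ t : ℝ} (hf : DifferentiableAt ℂ f (σ + t * I))
    (h0 : f (σ + t * I) ≠ 0) :
    HasDerivAt (fun x : ℝ => Real.log ‖f (x + t * I)‖) (deriv f (σ + t * I) / f (σ + t * I)).re σ := by
  set z : ℂ := σ + t * I with hz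
  have h1 : HasDerivAt (fun x : ℝ => f ((x : ℂ) + t * I)) (deriv f z) σ := by
    have h2 : HasDerivAt (fun w : ℂ => w + t * I) 1 (σ : ℂ) := (hasDerivAt_id (σ : ℂ)).add_const _
    have h3 := (hf.hasDerivAt).comp (σ : ℂ) h2
    rw [mul_one] at h3
    exact h3.comp_ofReal
  have h2 := h1.norm_sq
  have hne : ‖f z‖ ^ 2 ≠ 0 := pow_ne_zero _ (norm_ne_zero_iff.mpr h0)
  have h3 := (h2.log hne).const_mul (1 / 2)
  have e : (fun x : ℝ => 1 / 2 * Real.log (‖f ((x : ℂ) + t * I)‖ ^ 2)) = fun x : ℝ => Real.log ‖f (x + t * I)‖ := by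
    funext x
    rw [Real.log_pow]
    push_cast
    ring
  rw [e] at h3
  refine h3.congr_deriv ?_
  rw [← hz, Complex.div_re, Complex.inner, ← Complex.normSq_eq_norm_sq]
  simp only [Complex.mul_re, Complex.conj_re, Complex.conj_im]
  ring

lemma re_le_of_left {f : ℂ → ℂ} {σ t c : ℝ} (hf : DifferentiableAt ℂ f (σ + t * I))
    (h0 : f (σ + t * I) ≠ 0)
    (h : ∀ᶠ x : ℝ in 𝓝[<] σ, ‖f (σ + t * I)‖ * Real.exp (c * (σ - x)) ≤ ‖f (x + t * I)‖) :
    (deriv f (σ + t * I) / f (σ + t * I)).re ≤ -c := by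
  have h1 := (hasDerivAt_log_norm hf h0).tendsto_slope
  have h2 : Tendsto (slope (fun x : ℝ => Real.log ‖f (x + t * I)‖) σ) (𝓝[<] σ)
      (𝓝 (deriv f (σ + t * I) / f (σ + t * I)).re) :=
    h1.mono_left (nhdsWithin_mono _ (fun x hx => ne_of_lt hx))
  refine le_of_tendsto h2 ?_
  filter_upwards [h, self_mem_nhdsWithin] with x hx hxσ
  rw [Set.mem_Iio] at hxσ
  have hp : 0 < ‖f (σ + t * I)‖ := norm_pos_iff.mpr h0
  have h3 := Real.log_le_log (by positivity) hx
  rw [Real.log_mul hp.ne' (Real.exp_pos _).ne', Real.log_exp] at h3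
  rw [slope_def_field, div_le_iff_of_neg (by linarith)]
  linarith

lemma re_ge_of_right {f : ℂ → ℂ} {σ t c : ℝ} (hf : DifferentiableAt ℂ f (σ + t * I))
    (h0 : f (σ + t * I) ≠ 0)
    (h : ∀ᶠ x : ℝ in 𝓝[>] σ, ‖f (σ + t * I)‖ * Real.exp (c * (x - σ)) ≤ ‖f (x + t * I)‖) :
    c ≤ (deriv f (σ + t * I) / f (σ + t * I)).re := by
  have h1 := (hasDerivAt_log_norm hf h0).tendsto_slope
  have h2 : Tendsto (slope (fun x : ℝ => Real.log ‖f (x + t * I)‖) σ) (𝓝[>] σ)
      (𝓝 (deriv f (σ + t * I) / f (σ + t * I)).re) :=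
    h1.mono_left (nhdsWithin_mono _ (fun x hx => ne_of_gt hx))
  refine ge_of_tendsto h2 ?_
  filter_upwards [h, self_mem_nhdsWithin] with x hx hxσ
  rw [Set.mem_Ioi] at hxσ
  have hp : 0 < ‖f (σ + t * I)‖ := norm_pos_iff.mpr h0
  have h3 := Real.log_le_log (by positivity) hx
  rw [Real.log_mul hp.ne' (Real.exp_pos _).ne', Real.log_exp] at h3
  rw [slope_def_field, le_div_iff₀ (by linarith)]
  linarith

/-- a product of two functions -/
lemma logderiv_mul_of {F G H : ℂ → ℂ} {z : ℂ} (h : F =ᶠ[𝓝 z] fun w => G w * H w)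
    (hG : DifferentiableAt ℂ G z) (hH : DifferentiableAt ℂ H z) (hG0 : G z ≠ 0) (hH0 : H z ≠ 0) :
    deriv F z / F z = deriv G z / G z + deriv H z / H z := by
  have h1 : HasDerivAt (fun w => G w * H w) (deriv G z * H z + G z * deriv H z) z :=
    hG.hasDerivAt.mul hH.hasDerivAt
  rw [h.deriv_eq, h.eq_of_nhds, h1.deriv]
  field_simp

end Pool.Agent.N831.SP
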