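import Pool.Agent.N831.SP.B

set_option autoImplicit false

/-! The sign of the real part of the logarithmic derivative of zeta just left of the critical line. -/

namespace Pool.Agent.N831.SP

open Complex Filter Topology Set MeasureTheory
open Pool.Agent.H24R2.JP
open Pool.Agent.Y22.LM

noncomputable section

lemma logderiv_pow {z0 z : ℂ} (m : ℕ) (h : z ≠ z0) :
    deriv (fun w : ℂ => (w - z0) ^ m) z / (z - z0) ^ m = m / (z - z0) := by
  have hs : z - z0 ≠ 0 := sub_ne_zero.mpr h
  have h1 : HasDerivAt (fun w : ℂ => (w - z0) ^ m) (m * (z - z0) ^ (m - 1) * 1) z :=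
    ((hasDerivAt_id z).sub_const z0).pow m
  rw [h1.deriv, mul_one]
  rcases Nat.eq_zero_or_pos m with h0 | hp
  · rw [h0]; simp
  · obtain ⟨k, rfl⟩ : ∃ k, m = k + 1 := ⟨m - 1, by omega⟩
    simp only [Nat.add_sub_cancel, pow_succ]
    field_simp

lemma zeta_split {z : ℂ} (hz : 0 < z.im) (h0 : riemannZeta (1 / 2 + z) ≠ 0) :
    deriv XX z / XX z = deriv HH z / HH z + deriv riemannZeta (1 / 2 + z) / riemannZeta (1 / 2 + z) := by
  have hne : (1 / 2 + z : ℂ) ≠ 1 := ne_one_of_im (by simpa using hz)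
  have h2 : XX =ᶠ[𝓝 z] fun w => HH w * (fun w : ℂ => riemannZeta (1 / 2 + w)) w := by
    have : ∀ᶠ w : ℂ in 𝓝 z, 0 < w.im := (isOpen_lt continuous_const Complex.continuous_im).mem_nhds hz
    filter_upwards [this] with w hw
    exact ZetaTask.part1 w hw
  have hd : DifferentiableAt ℂ (fun w : ℂ => riemannZeta (1 / 2 + w)) z := by
    have h3 : DifferentiableAt ℂ riemannZeta (1 / 2 + z) := differentiableAt_riemannZeta hne
    exact h3.comp z (by fun_prop)
  have h3 := logderiv_mul_of h2 (HH_an hz).differentiableAt hd (HH_ne_zero hz) h0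
  rw [h3, deriv_comp_const_add]

theorem near {t : ℝ} (ht : 24 ≤ t) : ∀ᶠ s : ℂ in 𝓝 (1 / 2 + t * I), s.re < 1 / 2 →
    riemannZeta s ≠ 0 ∧ (deriv riemannZeta s / riemannZeta s).re < 0 := by
  set z0 : ℂ := t * I with hz0
  have hz0i : z0.im = t := by simp [hz0]
  have hz0r : z0.re = 0 := by simp [hz0]
  have ht0 : 0 < t := by linarith
  have hX : AnalyticAt ℂ XX z0 := B1h.XX_diff.analyticAt z0
  obtain ⟨g, hg, hg0, hgz⟩ := (hX.analyticOrderAt_ne_top).mp (XX_top z0)
  set m := analyticOrderNatAt XX z0 with hm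
  -- the formula
  have hform : ∀ᶠ z in 𝓝 z0, z ≠ z0 → XX z ≠ 0 ∧ deriv XX z / XX z = m / (z - z0) + deriv g z / g z := by
    filter_upwards [hgz.eventually_nhds, hg.eventually_analyticAt, hg.continuousAt.eventually_ne hg0]
      with z h1 h2 h3 hne
    have h4 : XX z = (z - z0) ^ m * g z := by
      have := h1.self_of_nhds
      simpa [smul_eq_mul] using this
    have hp : (z - z0) ^ m ≠ 0 := pow_ne_zero _ (sub_ne_zero.mpr hne)
    refine ⟨by rw [h4]; exact mul_ne_zero hp h3, ?_⟩
    have h5 : XX =ᶠ[𝓝 z] fun w => (fun w : ℂ => (w - z0) ^ m) w * g w := by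
      filter_upwards [h1] with w hw
      simpa [smul_eq_mul] using hw
    have h6 := logderiv_mul_of h5 (by fun_prop) h2.differentiableAt hp h3
    rw [h6, logderiv_pow m hne]
  -- the real part of the regular part vanishes at the centre
  have hcont : ContinuousAt (fun z => (deriv g z / g z).re) z0 :=
    Complex.continuous_re.continuousAt.comp (hg.deriv.continuousAt.div hg.continuousAt hg0)
  have hr0 : (deriv g z0 / g z0).re = 0 := by
    have hmap : Tendsto (fun u : ℝ => (u : ℂ) * I) (𝓝[≠] t) (𝓝 z0) := by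
      have : Continuous (fun u : ℝ => (u : ℂ) * I) := by fun_prop
      exact (this.tendsto t).mono_left nhdsWithin_le_nhds
    have h1 : Tendsto (fun u : ℝ => (deriv g ((u : ℂ) * I) / g ((u : ℂ) * I)).re) (𝓝[≠] t)
        (𝓝 (deriv g z0 / g z0).re) := hcont.tendsto.comp hmap
    have h2 : ∀ᶠ u : ℝ in 𝓝[≠] t, (deriv g ((u : ℂ) * I) / g ((u : ℂ) * I)).re = 0 := by
      filter_upwards [hmap.eventually hform, self_mem_nhdsWithin] with u hu hut
      have hne : (u : ℂ) * I ≠ z0 := by
        intro h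
        have := congrArg Complex.im h
        rw [hz0i] at this
        simp at this
        exact hut this
      have h3 := congrArg Complex.re (hu hne).2
      rw [logderiv_axis, Complex.add_re] at h3
      have h4 : ((m : ℂ) / ((u : ℂ) * I - z0)).re = 0 := by
        have e : (u : ℂ) * I - z0 = ((u - t : ℝ) : ℂ) * I := by rw [hz0]; push_cast; ring
        rw [e, Complex.div_re]
        simp
      rw [h4] at h3
      linarith
    exact tendsto_nhds_unique h1 ((tendsto_congr' h2).mpr tendsto_const_nhds)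
  have hc0 := LL_pos ht
  have hr : ∀ᶠ z in 𝓝 z0, (deriv g z / g z).re < LL t / 2 := by
    have := hcont.eventually_lt_const (u := LL t / 2) (by simp only; rw [hr0]; linarith)
    exact this
  have hLc : ContinuousAt (fun z : ℂ => LL z.im) z0 := by
    unfold LL
    have h1 : ContinuousAt (fun z : ℂ => z.im) z0 := Complex.continuous_im.continuousAt
    have h2 : ContinuousAt (fun z : ℂ => Real.log (z.im / (2 * Real.pi))) z0 :=
      (h1.div_const _).log (by rw [hz0i]; positivity)
    have h3 : ContinuousAt (fun z : ℂ => 6 / z.im) z0 := continuousAt_const.div h1 (by rw [hz0i]; positivity)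
    exact (h2.const_mul _).sub h3
  have hL : ∀ᶠ z in 𝓝 z0, LL t / 2 < LL z.im := by
    have := hLc.eventually_const_lt (u := LL t / 2) (by simp only; rw [hz0i]; linarith)
    exact this
  have hmain : ∀ᶠ z in 𝓝 z0, z.re < 0 → riemannZeta (1 / 2 + z) ≠ 0 ∧
      (deriv riemannZeta (1 / 2 + z) / riemannZeta (1 / 2 + z)).re < 0 := by
    have him : ∀ᶠ z : ℂ in 𝓝 z0, 0 < z.im :=
      (isOpen_lt continuous_const Complex.continuous_im).mem_nhds (by show 0 < z0.im; rw [hz0i]; exact ht0)
    filter_upwards [hform, hr, hL, him] with z h1 h2 h3 h4 hre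
    have hne : z ≠ z0 := by
      intro h
      rw [h, hz0r] at hre
      exact lt_irrefl _ hre
    obtain ⟨h5, h6⟩ := h1 hne
    have h7 : riemannZeta (1 / 2 + z) ≠ 0 := fun h => h5 ((XX_zero_iff h4).mpr h)
    refine ⟨h7, ?_⟩
    have h8 := zeta_split h4 h7
    rw [h6] at h8
    have h9 := congrArg Complex.re h8
    rw [Complex.add_re, Complex.add_re] at h9
    have h10 : ((m : ℂ) / (z - z0)).re ≤ 0 := by
      rw [Complex.div_re]
      have e1 : (z - z0).re = z.re := by rw [Complex.sub_re, hz0r, sub_zero]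
      rw [e1]
      simp only [Complex.natCast_re, Complex.natCast_im, zero_mul, zero_div, add_zero]
      refine div_nonpos_of_nonpos_of_nonneg ?_ (Complex.normSq_nonneg _)
      exact mul_nonpos_of_nonneg_of_nonpos (Nat.cast_nonneg _) hre.le
    have h11 : LL z.im ≤ (deriv HH z / HH z).re := by
      have := HH_re (σ := z.re) h4
      rwa [Complex.re_add_im] at this
    linarith
  have htr : Tendsto (fun s : ℂ => s - 1 / 2) (𝓝 (1 / 2 + z0)) (𝓝 z0) := by
    have : Continuous (fun s : ℂ => s - 1 / 2) := by fun_prop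
    have h := this.tendsto (1 / 2 + z0)
    simpa using h
  filter_upwards [htr.eventually hmain] with s hs hre
  have e : (1 / 2 + (s - 1 / 2) : ℂ) = s := by ring
  rw [e] at hs
  refine hs ?_
  have : (s - 1 / 2 : ℂ).re = s.re - 1 / 2 := by simp
  rw [this]
  linarith

/-- uniformly on a compact part -/
theorem strip {T1 T2 : ℝ} (h1 : 24 ≤ T1) : ∃ δ : ℝ, 0 < δ ∧ ∀ t ∈ Icc T1 T2, ∀ σ : ℝ,
    1 / 2 - δ < σ → σ < 1 / 2 →
      riemannZeta (σ + t * I) ≠ 0 ∧ (deriv riemannZeta (σ + t * I) / riemannZeta (σ + t * I)).re < 0 := by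
  have key : ∀ᶠ δ : ℝ in 𝓝 (0 : ℝ), ∀ t ∈ Icc T1 T2, 0 < δ →
      riemannZeta (((1 / 2 - δ : ℝ) : ℂ) + t * I) ≠ 0 ∧
        (deriv riemannZeta (((1 / 2 - δ : ℝ) : ℂ) + t * I) / riemannZeta (((1 / 2 - δ : ℝ) : ℂ) + t * I)).re < 0 := by
    refine isCompact_Icc.eventually_forall_of_forall_eventually (fun t ht => ?_)
    have hc : Continuous (fun p : ℝ × ℝ => (((1 / 2 - p.1 : ℝ) : ℂ) + p.2 * I : ℂ)) := by fun_prop
    have hmap : Tendsto (fun p : ℝ × ℝ => (((1 / 2 - p.1 : ℝ) : ℂ) + p.2 * I : ℂ)) (𝓝 ((0 : ℝ), t))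
        (𝓝 (1 / 2 + t * I)) := by
      have := hc.tendsto ((0 : ℝ), t)
      simpa using this
    filter_upwards [hmap.eventually (near (h1.trans ht.1))] with p hp hp0
    exact hp (by simp; exact hp0)
  obtain ⟨δ, hδ, hball⟩ := Metric.eventually_nhds_iff.mp key
  refine ⟨δ, hδ, fun t ht σ h3 h4 => ?_⟩
  have h5 := hball (y := 1 / 2 - σ) (by rw [Real.dist_eq, sub_zero, abs_of_pos (by linarith)]; linarith) t ht (by linarith)
  have e : (1 / 2 - (1 / 2 - σ) : ℝ) = σ := by ring
  rw [e] at h5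
  exact h5

end

end Pool.Agent.N831.SP
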